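import Pool.Agent.H10.Fox

/-! Two minimal partial resolutions of length one with different Fox ideals. -/

namespace Pool.Agent.Results.MP_506947_al.Yes

/-- A partial resolution `C₁ → C₀ → ℤ` of length one by finitely generated free left modules. -/
structure PRes (G : Type) [Group G] where
  r0 : ℕ
  r1 : ℕ
  d1 : (Fin r1 → MonoidAlgebra ℤ G) →ₗ[MonoidAlgebra ℤ G] (Fin r0 → MonoidAlgebra ℤ G)
  d0 : (Fin r0 → MonoidAlgebra ℤ G) →+ ℤ
  d0_inv : ∀ (g : G) (c : Fin r0 → MonoidAlgebra ℤ G), d0 (MonoidAlgebra.of ℤ G g • c) = d0 c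
  d0_surj : Function.Surjective d0
  exact : Function.Exact d1 d0

/-- The directed Euler characteristic. -/
def PRes.chi {G : Type} [Group G] (C : PRes G) : ℤ := (C.r1 : ℤ) - (C.r0 : ℤ)

/-- Minimal partial resolutions. -/
def PRes.Minimal {G : Type} [Group G] (C : PRes G) : Prop := ∀ E : PRes G, C.chi ≤ E.chi

/-- The first Fox ideal. -/
noncomputable def PRes.fox {G : Type} [Group G] (C : PRes G) : TwoSidedIdeal (MonoidAlgebra ℤ G) :=
  TwoSidedIdeal.span {a | ∃ t : Fin C.r1 → MonoidAlgebra ℤ G, C.d1 t = 0 ∧ ∃ i, a = t i}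

open Pool.Agent.H10.Fox MonoidAlgebra in
theorem result : ∃ (G : Type) (_ : Group G) (C D : PRes G),
    C.Minimal ∧ D.Minimal ∧ C.fox ≠ D.fox := by
  have key : ∀ s : Fin 5 → G, Subgroup.closure (Set.range s) = ⊤ → ∃ C : PRes G, C.Minimal ∧
      C.fox = TwoSidedIdeal.span {a | ∃ t : Fin 5 → MonoidAlgebra ℤ G,
        ∑ i, t i * (of ℤ G (s i) - 1) = 0 ∧ ∃ i, a = t i} := by
    intro s hs
    let d1 : (Fin 5 → MonoidAlgebra ℤ G) →ₗ[MonoidAlgebra ℤ G] (Fin 1 → MonoidAlgebra ℤ G) :=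
      LinearMap.pi fun _ => Fintype.linearCombination _ fun i => of ℤ G (s i) - 1
    have hd : ∀ t, d1 t = fun _ => ∑ i, t i * (of ℤ G (s i) - 1) := fun t =>
      funext fun _ => by simp [d1, Fintype.linearCombination_apply]
    refine ⟨⟨1, 5, d1, (eps G).toAddMonoidHom.comp (Pi.evalAddMonoidHom _ 0), fun g c => ?_,
      fun n => ⟨fun _ => n, map_intCast (eps G) n⟩, fun c => ⟨fun h => ?_, ?_⟩⟩, fun E => ?_, ?_⟩
    · change eps G (of ℤ G g * c 0) = eps G (c 0)
      rw [map_mul, eps_of, one_mul]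
    · obtain ⟨t, ht⟩ := exact_gen s hs (c 0) h
      refine ⟨t, ?_⟩
      rw [hd, ht]
      funext i
      rw [Subsingleton.elim i 0]
    · rintro ⟨t, rfl⟩
      rw [hd]
      change eps G (∑ i, t i * (of ℤ G (s i) - 1)) = 0
      simp only [map_sum, map_mul, eps_sub, mul_zero, Finset.sum_const_zero]
    · have := minimal E.d1 E.d0 E.d0_inv E.d0_surj E.exact
      simp only [PRes.chi]
      omega
    · simp only [PRes.fox, hd]
      congr 1
      ext a
      refine exists_congr fun t => and_congr_left' ⟨fun h => congrFun h 0, fun h => ?_⟩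
      rw [h]; rfl
  obtain ⟨C, hC, eC⟩ := key s1 hs1
  obtain ⟨D, hD, eD⟩ := key s2 hs2
  refine ⟨G, inferInstance, C, D, hC, hD, fun h => ?_⟩
  obtain ⟨t, ht, h0⟩ := ker2
  have h1 : t 0 ∈ D.fox := eD ▸ TwoSidedIdeal.subset_span ⟨t, ht, 0, rfl⟩
  have h2 : C.fox ≤ TwoSidedIdeal.ker rho := by
    rw [eC, TwoSidedIdeal.span_le]
    rintro _ ⟨t, ht, i, rfl⟩
    exact (TwoSidedIdeal.mem_ker _).2 (ker1 t ht i)
  exact h0 ((TwoSidedIdeal.mem_ker _).1 (h2 (h ▸ h1)))

end Pool.Agent.Results.MP_506947_al.Yes
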